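import Pool.Agent.H56.LIM.VPR
import Pool.Agent.H73.DZ.Cond

/-!
Module CPT: convergent subsequences.
-/

set_option autoImplicit false

open Complex MeasureTheory Set Filter Topology Metric

namespace Pool.Agent.H56.LIM

open Pool.Agent.H20.LIM Pool.Agent.H23.GLM Pool.Agent.H23.DZ

lemma measurableSet_HD (R : ℝ) : MeasurableSet (HD R) :=
  measurableSet_closedBall.inter (measurableSet_le measurable_const Complex.measurable_re)

lemma Jr_norm (z : ℂ) : ‖Jr z‖ = ‖z‖ := Jr.norm_map z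

/-- the integral over a disc, by reflection of the left half -/
lemma lintegral_reflect (g : ℂ → ENNReal) (R : ℝ) :
    ∫⁻ z in closedBall (0 : ℂ) R, g z ≤ (∫⁻ z in HD R, g z) + ∫⁻ z in HD R, g (Jr z) := by
  have hA : MeasurableSet (closedBall (0 : ℂ) R ∩ {z | z.re < 0}) :=
    measurableSet_closedBall.inter (measurableSet_lt Complex.measurable_re measurable_const)
  have h1 : closedBall (0 : ℂ) R ⊆ HD R ∪ (closedBall (0 : ℂ) R ∩ {z | z.re < 0}) := by
    intro z hz
    rcases le_or_gt (0 : ℝ) z.re with h | h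
    · exact Or.inl ⟨hz, h⟩
    · exact Or.inr ⟨hz, h⟩
  refine (lintegral_mono_set h1).trans ((lintegral_union_le _ _ _).trans ?_)
  refine add_le_add le_rfl ?_
  rw [← lintegral_indicator hA, ← lintegral_indicator (measurableSet_HD R),
    ← Jr_mp.lintegral_comp_emb Jr.toHomeomorph.measurableEmbedding]
  refine lintegral_mono fun w => ?_
  by_cases hw : Jr w ∈ closedBall (0 : ℂ) R ∩ {z | z.re < 0}
  · have h2 : w ∈ HD R := by
      refine ⟨?_, ?_⟩
      · have h3 := hw.1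
        rw [mem_closedBall, dist_zero_right, Jr_norm] at h3
        rw [mem_closedBall, dist_zero_right]
        exact h3
      · have h3 : (Jr w).re < 0 := hw.2
        rw [Jr_re] at h3
        show 0 ≤ w.re
        linarith
    rw [indicator_of_mem hw, indicator_of_mem h2]
  · rw [indicator_of_notMem hw]
    exact zero_le

/-- the limit function, extended to the left by the functional equation -/
noncomputable def ext (q : ℝ) (u₁ : ℂ → ℝ) (z : ℂ) : ℝ :=
  if 0 ≤ z.re then u₁ z else u₁ (Jr z) - q * z.re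

lemma Jr_self {z : ℂ} (h : z.re = 0) : Jr z = z := by
  rw [Jr_apply]
  apply Complex.ext
  · simp [h]
  · simp

lemma ext_Jr (q : ℝ) (u₁ : ℂ → ℝ) {w : ℂ} (hw : 0 ≤ w.re) :
    ext q u₁ (Jr w) = u₁ w + q * w.re := by
  rcases hw.lt_or_eq with h | h
  · unfold ext
    rw [if_neg (by rw [Jr_re]; linarith), Jr_Jr, Jr_re]
    ring
  · rw [Jr_self h.symm]
    unfold ext
    rw [if_pos hw, ← h]
    ring

lemma ext_func (q : ℝ) (u₁ : ℂ → ℝ) (z : ℂ) :
    ext q u₁ (-(starRingEnd ℂ) z) = ext q u₁ z + q * z.re := by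
  rw [← Jr_apply]
  rcases le_or_gt 0 z.re with h | h
  · rw [ext_Jr q u₁ h]
    unfold ext
    rw [if_pos h]
  · have h1 : (0 : ℝ) ≤ (Jr z).re := by rw [Jr_re]; linarith
    have h2 := ext_Jr q u₁ h1
    rw [Jr_Jr, Jr_re] at h2
    rw [h2]
    unfold ext
    rw [if_pos h1]
    ring

lemma measurable_Jr : Measurable (fun z : ℂ => Jr z) := Jr.continuous.measurable

lemma measurable_ext {q : ℝ} {u₁ : ℂ → ℝ} (h : Measurable u₁) : Measurable (ext q u₁) := by
  unfold ext
  refine Measurable.ite (measurableSet_le measurable_const Complex.measurable_re) h ?_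
  exact (h.comp measurable_Jr).sub (measurable_const.mul Complex.measurable_re)

/-- the basic estimate -/
lemma key_est {m : ℕ} (π : LData m) (t q : ℝ) {u₁ : ℂ → ℝ} (hu : Measurable u₁)
    (hU : Measurable (U π t)) {R C : ℝ} (hR : 0 < R) (hX : 1 < π.X t)
    (hC : ∫⁻ z in HD R, ‖Real.log ‖π.L (1 / 2 + t * I + -(starRingEnd ℂ) z)‖ -
      Real.log ‖π.L (1 / 2 + t * I + z)‖ - z.re * Real.log (π.Q t)‖ₑ ≤ ENNReal.ofReal C) :
    ∫⁻ z in closedBall (0 : ℂ) R, ‖U π t z - ext q u₁ z‖ₑ ≤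
      2 * (∫⁻ z in HD R, ‖U π t z - u₁ z‖ₑ) +
        (ENNReal.ofReal (|C| / Real.log (π.X t)) +
          ENNReal.ofReal (|Real.log (π.Q t) / Real.log (π.X t) - q| * R) *
            volume (closedBall (0 : ℂ) R)) := by
  have hlog : 0 < Real.log (π.X t) := Real.log_pos hX
  refine (lintegral_reflect _ R).trans ?_
  have h1 : ∫⁻ z in HD R, ‖U π t z - ext q u₁ z‖ₑ = ∫⁻ z in HD R, ‖U π t z - u₁ z‖ₑ := by
    refine setLIntegral_congr_fun (measurableSet_HD R) fun z hz => ?_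
    have h2 : (0 : ℝ) ≤ z.re := hz.2
    simp only [ext, if_pos h2]
  rw [h1, two_mul, add_assoc]
  refine add_le_add le_rfl ?_
  set ρ : ℝ := Real.log (π.Q t) / Real.log (π.X t) with hρ
  have h2 : ∀ z ∈ HD R, ‖U π t (Jr z) - ext q u₁ (Jr z)‖ₑ ≤
      (‖U π t (Jr z) - U π t z - z.re * ρ‖ₑ + ‖U π t z - u₁ z‖ₑ) + ‖(ρ - q) * z.re‖ₑ := by
    intro z hz
    have h3 : (0 : ℝ) ≤ z.re := hz.2
    rw [ext_Jr q u₁ h3]
    have h4 : U π t (Jr z) - (u₁ z + q * z.re) =
        ((U π t (Jr z) - U π t z - z.re * ρ) + (U π t z - u₁ z)) + (ρ - q) * z.re := by ring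
    rw [h4]
    refine (enorm_add_le _ _).trans ?_
    gcongr
    exact enorm_add_le _ _
  refine (setLIntegral_mono' (measurableSet_HD R) h2).trans ?_
  have m1 : Measurable fun z : ℂ => ‖(ρ - q) * z.re‖ₑ := by fun_prop
  have m2 : Measurable fun z : ℂ => ‖U π t z - u₁ z‖ₑ := (hU.sub hu).enorm
  rw [lintegral_add_right _ m1, lintegral_add_right _ m2]
  have h5 : ∫⁻ z in HD R, ‖U π t (Jr z) - U π t z - z.re * ρ‖ₑ ≤
      ENNReal.ofReal (|C| / Real.log (π.X t)) := by
    have h6 : ∀ z : ℂ, ‖U π t (Jr z) - U π t z - z.re * ρ‖ₑ =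
        ENNReal.ofReal (Real.log (π.X t))⁻¹ *
        ‖Real.log ‖π.L (1 / 2 + t * I + -(starRingEnd ℂ) z)‖ -
          Real.log ‖π.L (1 / 2 + t * I + z)‖ - z.re * Real.log (π.Q t)‖ₑ := by
      intro z
      have h7 : U π t (Jr z) - U π t z - z.re * ρ = (Real.log (π.X t))⁻¹ *
          (Real.log ‖π.L (1 / 2 + t * I + -(starRingEnd ℂ) z)‖ -
          Real.log ‖π.L (1 / 2 + t * I + z)‖ - z.re * Real.log (π.Q t)) := by
        unfold U
        rw [Jr_apply, hρ]
        field_simp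
      rw [h7, enorm_mul, Real.enorm_of_nonneg (inv_nonneg.2 hlog.le)]
    simp_rw [h6]
    rw [lintegral_const_mul' _ _ ENNReal.ofReal_ne_top]
    calc ENNReal.ofReal (Real.log (π.X t))⁻¹ * _
        ≤ ENNReal.ofReal (Real.log (π.X t))⁻¹ * ENNReal.ofReal |C| := by
          gcongr
          exact hC.trans (ENNReal.ofReal_le_ofReal (le_abs_self C))
      _ = ENNReal.ofReal (|C| / Real.log (π.X t)) := by
          rw [← ENNReal.ofReal_mul (inv_nonneg.2 hlog.le)]
          congr 1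
          field_simp
  have h8 : ∫⁻ z in HD R, ‖(ρ - q) * z.re‖ₑ ≤
      ENNReal.ofReal (|ρ - q| * R) * volume (closedBall (0 : ℂ) R) := by
    have h9 : ∀ z ∈ HD R, ‖(ρ - q) * z.re‖ₑ ≤ ENNReal.ofReal (|ρ - q| * R) := by
      intro z hz
      rw [← ofReal_norm, norm_mul, Real.norm_eq_abs, Real.norm_eq_abs]
      refine ENNReal.ofReal_le_ofReal ?_
      have h10 : |z.re| ≤ R := (Complex.abs_re_le_norm z).trans (by
        have := hz.1
        rwa [mem_closedBall, dist_zero_right] at this)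
      gcongr
    refine (setLIntegral_mono' (measurableSet_HD R) h9).trans ?_
    rw [setLIntegral_const]
    gcongr
    exact inter_subset_left
  calc _ ≤ (ENNReal.ofReal (|C| / Real.log (π.X t)) + (∫⁻ z in HD R, ‖U π t z - u₁ z‖ₑ)) +
        ENNReal.ofReal (|ρ - q| * R) * volume (closedBall (0 : ℂ) R) := by gcongr
    _ = _ := by ring

/-- module CPT -/
theorem pf_cpt (hSEQ : T_SEQ) (hFEU : T_FEU) (hLAN : T_LAN) : T_CPT := by
  intro m S hM hF π t hπ hX
  obtain ⟨φ₁, hφ₁, u₁, hu₁, h₁⟩ := hSEQ m S hM hF π t hπ hX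
  have hρ : ∀ k, Real.log ((π (φ₁ k)).Q (t (φ₁ k))) / Real.log ((π (φ₁ k)).X (t (φ₁ k))) ∈
      Icc (0 : ℝ) 1 := by
    intro k
    have h1 := Pool.Agent.H73.DZ.one_le_Q (π (φ₁ k)) (t (φ₁ k))
    have h2 := Pool.Agent.H73.DZ.Q_le_X (π (φ₁ k)) (t (φ₁ k))
    have h3 := Real.log_nonneg h1
    have h4 := Real.log_le_log (by linarith) h2
    refine ⟨div_nonneg h3 (h3.trans h4), ?_⟩
    rcases (h3.trans h4).eq_or_lt with h5 | h5
    · rw [← h5, div_zero]
      exact zero_le_one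
    · rw [div_le_one h5]
      exact h4
  obtain ⟨q, hq, ψ, hψ, hq'⟩ := isCompact_Icc.tendsto_subseq hρ
  have hφ : StrictMono fun k => φ₁ (ψ k) := hφ₁.comp hψ
  refine ⟨fun k => φ₁ (ψ k), hφ, q, ext q u₁, hq.1, hq.2, hq', ?_, ?_⟩
  · refine ⟨(measurable_ext hu₁).aestronglyMeasurable, fun R => ?_⟩
    set R' : ℝ := max R 1 with hR'
    have hR'0 : 0 < R' := lt_max_of_lt_right one_pos
    obtain ⟨C, hC⟩ := hFEU m R' hR'0
    have hXk : Tendsto (fun k => (π (φ₁ (ψ k))).X (t (φ₁ (ψ k)))) atTop atTop :=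
      hX.comp hφ.tendsto_atTop
    have hmeas := (hLAN m S hM hF π t hπ hX).1
    have hne : ∀ k, ∃ s, (π k).L s ≠ 0 := by
      intro k
      obtain ⟨σ₁, c, hc, h⟩ := hF
      refine ⟨σ₁, fun h0 => ?_⟩
      have h2 := (h (π k) (hπ k) σ₁ (by simp)).1
      rw [h0, norm_zero] at h2
      linarith
    have h2 : Tendsto (fun k => 2 * ∫⁻ z in HD R', ‖U (π (φ₁ (ψ k))) (t (φ₁ (ψ k))) z - u₁ z‖ₑ)
        atTop (𝓝 0) := by
      have := ENNReal.Tendsto.const_mul (a := 2) ((h₁ R' hR'0).2.comp hψ.tendsto_atTop)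
        (Or.inr (by norm_num))
      rw [mul_zero] at this
      exact this
    have h3 : Tendsto (fun k => ENNReal.ofReal
        (|C| / Real.log ((π (φ₁ (ψ k))).X (t (φ₁ (ψ k)))))) atTop (𝓝 0) := by
      rw [← ENNReal.ofReal_zero]
      refine ENNReal.tendsto_ofReal ?_
      exact Tendsto.div_atTop tendsto_const_nhds (Real.tendsto_log_atTop.comp hXk)
    have h4 : Tendsto (fun k => ENNReal.ofReal
        (|Real.log ((π (φ₁ (ψ k))).Q (t (φ₁ (ψ k)))) / Real.log ((π (φ₁ (ψ k))).X (t (φ₁ (ψ k)))) -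
          q| * R') * volume (closedBall (0 : ℂ) R')) atTop (𝓝 0) := by
      have h5 : Tendsto (fun k => |Real.log ((π (φ₁ (ψ k))).Q (t (φ₁ (ψ k)))) /
          Real.log ((π (φ₁ (ψ k))).X (t (φ₁ (ψ k)))) - q| * R') atTop (𝓝 0) := by
        have h6 := ((hq'.sub_const q).abs).mul_const R'
        rw [sub_self, abs_zero, zero_mul] at h6
        exact h6
      have h7 := ENNReal.tendsto_ofReal h5
      rw [ENNReal.ofReal_zero] at h7
      have h8 := ENNReal.Tendsto.mul_const (b := volume (closedBall (0 : ℂ) R')) h7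
        (Or.inr measure_closedBall_lt_top.ne)
      rw [zero_mul] at h8
      exact h8
    have h9 := h2.add (h3.add h4)
    rw [add_zero, add_zero] at h9
    refine tendsto_of_tendsto_of_tendsto_of_le_of_le' tendsto_const_nhds h9
      (Eventually.of_forall fun _ => zero_le) ?_
    filter_upwards [hXk.eventually_gt_atTop 1] with k hk
    have h10 : closedBall (0 : ℂ) R ⊆ closedBall (0 : ℂ) R' :=
      closedBall_subset_closedBall (le_max_left _ _)
    refine (lintegral_mono_set h10).trans ?_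
    exact key_est (π (φ₁ (ψ k))) (t (φ₁ (ψ k))) q hu₁ (hmeas _) hR'0 hk (hC _ _ (hne _))
  · exact Eventually.of_forall fun z => ext_func q u₁ z

end Pool.Agent.H56.LIM
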