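import Pool.Agent.H20.LIM.Targets

/-!
Module GL: size and continuity of the periodic kernel.
-/

set_option autoImplicit false

open Complex MeasureTheory Set Filter Topology Metric

namespace Pool.Agent.H56.LIM

open Pool.Agent.H20.LIM

/-- substitution in the `L^1` size -/
lemma L1_sub_le (f : ℂ → ℝ) (c : ℂ) {R A : ℝ} (hc : ‖c‖ ≤ A) :
    L1 R (fun z => f (z - c)) ≤ L1 (R + A) f := by
  unfold L1
  rw [← lintegral_indicator measurableSet_closedBall, ← lintegral_indicator measurableSet_closedBall]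
  have h1 := lintegral_sub_right_eq_self (μ := (volume : Measure ℂ))
    ((closedBall (0 : ℂ) (R + A)).indicator fun z => ‖f z‖ₑ) c
  rw [← h1]
  refine lintegral_mono fun z => ?_
  by_cases hz : z ∈ closedBall (0 : ℂ) R
  · have h2 : z - c ∈ closedBall (0 : ℂ) (R + A) := by
      rw [mem_closedBall, dist_zero_right] at hz ⊢
      exact (norm_sub_le _ _).trans (add_le_add hz hc)
    rw [indicator_of_mem hz, indicator_of_mem h2]
  · rw [indicator_of_notMem hz]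
    exact zero_le

lemma L1_lt_top {f : ℂ → ℝ} (hf : LocallyIntegrable f volume) (R : ℝ) : L1 R f < ⊤ :=
  (hf.integrableOn_isCompact (isCompact_closedBall (0 : ℂ) R)).2

/-- the kernel is periodic -/
lemma G_per (θ : ℝ) (hθ : 0 < θ) (k : ℤ) (w : ℂ) :
    G θ (w + k * ((2 * Real.pi / θ : ℝ) : ℂ) * I) = G θ w := by
  unfold G
  have hθ' : (θ : ℂ) ≠ 0 := by exact_mod_cast hθ.ne'
  have h1 : -((θ : ℂ) * (w + k * ((2 * Real.pi / θ : ℝ) : ℂ) * I)) =
      -((θ : ℂ) * w) + (-k : ℤ) * (2 * Real.pi * I) := by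
    push_cast
    field_simp
    ring
  rw [h1, Complex.exp_add, Complex.exp_int_mul_two_pi_mul_I, mul_one]

lemma G_loc (hLI : T_LI) (θ : ℝ) (hθ : 0 < θ) : LocallyIntegrable (G θ) volume := by
  refine hLI (fun w => 1 - cexp (-(θ * w))) (by fun_prop) ⟨1, ?_⟩
  intro h
  have h1 : cexp (-(θ * 1)) = 1 := by linear_combination -h
  have h2 := congrArg norm h1
  rw [Complex.norm_exp, norm_one] at h2
  have h3 : (-((θ : ℂ) * 1)).re = -θ := by simp
  rw [h3, Real.exp_eq_one_iff] at h2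
  linarith

/-- reduction of the parameter modulo the period -/
lemma shift (θ : ℝ) (hθ : 0 < θ) (ζ : ℂ) (hζ : |ζ.re| ≤ 1) : ∃ (k : ℤ) (ζ₀ : ℂ),
    ζ = ζ₀ + k * ((2 * Real.pi / θ : ℝ) : ℂ) * I ∧ ‖ζ₀‖ ≤ 1 + 2 * Real.pi / θ := by
  set P : ℝ := 2 * Real.pi / θ with hP
  have hP0 : 0 < P := by positivity
  refine ⟨⌊ζ.im / P⌋, ζ - ⌊ζ.im / P⌋ * (P : ℂ) * I, by ring, ?_⟩
  refine (Complex.norm_le_abs_re_add_abs_im _).trans ?_
  have h1 : (ζ - ⌊ζ.im / P⌋ * (P : ℂ) * I).re = ζ.re := by simp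
  have h2 : (ζ - ⌊ζ.im / P⌋ * (P : ℂ) * I).im = ζ.im - ⌊ζ.im / P⌋ * P := by simp
  rw [h1, h2]
  have h3 : (⌊ζ.im / P⌋ : ℝ) * P ≤ ζ.im := by
    have := Int.floor_le (ζ.im / P)
    rwa [le_div_iff₀ hP0] at this
  have h4 : ζ.im < (⌊ζ.im / P⌋ + 1 : ℝ) * P := by
    have := Int.lt_floor_add_one (ζ.im / P)
    rwa [div_lt_iff₀ hP0] at this
  rw [abs_of_nonneg (by linarith : 0 ≤ ζ.im - ⌊ζ.im / P⌋ * P)]
  linarith

lemma exp_lip (θ : ℝ) (hθ : 0 < θ) {w w' : ℂ} (hw : 0 ≤ w.re) (hw' : 0 ≤ w'.re) :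
    ‖cexp (-(θ * w)) - cexp (-(θ * w'))‖ ≤ θ * ‖w - w'‖ := by
  have hd : ∀ x : ℂ, HasDerivAt (fun w : ℂ => cexp (-(θ * w))) (cexp (-(θ * x)) * (-θ)) x := by
    intro x
    have h0 := (hasDerivAt_id x).const_mul (-θ : ℂ)
    rw [mul_one] at h0
    have h1 : HasDerivAt (fun w : ℂ => -((θ : ℂ) * w)) (-θ) x := by
      refine h0.congr_of_eventuallyEq (Filter.Eventually.of_forall fun w => ?_)
      simp
    exact h1.cexp
  have h := Convex.norm_image_sub_le_of_norm_hasDerivWithin_le (𝕜 := ℂ)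
    (f := fun w : ℂ => cexp (-(θ * w))) (f' := fun x => cexp (-(θ * x)) * (-θ))
    (s := {z : ℂ | 0 ≤ z.re}) (C := θ) (x := w') (y := w)
    (fun x _ => (hd x).hasDerivWithinAt) (fun x hx => ?_) (convex_halfSpace_re_ge 0) hw' hw
  · exact h
  · rw [norm_mul, norm_neg, Complex.norm_real, Real.norm_eq_abs, abs_of_pos hθ, Complex.norm_exp]
    have h1 : (-((θ : ℂ) * x)).re = -(θ * x.re) := by simp
    rw [h1]
    have hx' : (0 : ℝ) ≤ x.re := hx
    have h2 : Real.exp (-(θ * x.re)) ≤ 1 := by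
      rw [Real.exp_le_one_iff]
      nlinarith
    nlinarith

lemma log_lip {a b m : ℝ} (hm : 0 < m) (ha : m ≤ a) (hb : m ≤ b) :
    |Real.log a - Real.log b| ≤ |a - b| / m := by
  have key : ∀ x y : ℝ, m ≤ x → x ≤ y → Real.log y - Real.log x ≤ (y - x) / m := by
    intro x y hx hxy
    have hx0 : 0 < x := hm.trans_le hx
    have hy0 : 0 < y := hx0.trans_le hxy
    rw [← Real.log_div hy0.ne' hx0.ne']
    have h1 := Real.log_le_sub_one_of_pos (div_pos hy0 hx0)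
    refine h1.trans ?_
    have h2 : y / x - 1 = (y - x) / x := by field_simp
    rw [h2]
    exact div_le_div_of_nonneg_left (by linarith) hm hx
  rcases le_total a b with h | h
  · have h1 := key a b ha h
    have h2 := Real.log_le_log (hm.trans_le ha) h
    rw [abs_of_nonpos (by linarith), abs_of_nonpos (by linarith)]
    have : -(Real.log a - Real.log b) = Real.log b - Real.log a := by ring
    rw [this]
    refine h1.trans (le_of_eq ?_)
    ring
  · have h1 := key b a hb h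
    have h2 := Real.log_le_log (hm.trans_le hb) h
    rw [abs_of_nonneg (by linarith), abs_of_nonneg (by linarith)]
    exact h1

lemma G_right (θ δ : ℝ) (hθ : 0 < θ) (hδ : 0 < δ) : ∃ C : ℝ, 0 ≤ C ∧ ∀ w w' : ℂ,
    δ ≤ w.re → δ ≤ w'.re → 1 - cexp (-(θ * w)) ≠ 0 ∧ |G θ w| ≤ C ∧
      |G θ w - G θ w'| ≤ C * ‖w - w'‖ := by
  set s : ℝ := Real.exp (-(θ * δ)) with hs
  have hs0 : 0 < s := Real.exp_pos _
  have hs1 : s < 1 := by
    rw [hs, Real.exp_lt_one_iff]
    nlinarith [mul_pos hθ hδ]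
  have hm : 0 < 1 - s := by linarith
  have hn : ∀ w : ℂ, δ ≤ w.re → 1 - s ≤ ‖1 - cexp (-(θ * w))‖ ∧ ‖1 - cexp (-(θ * w))‖ ≤ 2 := by
    intro w hw
    have h1 : ‖cexp (-(θ * w))‖ ≤ s := by
      rw [Complex.norm_exp, hs, Real.exp_le_exp]
      have h2 : (-((θ : ℂ) * w)).re = -(θ * w.re) := by simp
      rw [h2]
      nlinarith
    constructor
    · have h2 := norm_sub_norm_le (1 : ℂ) (cexp (-(θ * w)))
      rw [norm_one] at h2
      linarith
    · have h2 := norm_sub_le (1 : ℂ) (cexp (-(θ * w)))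
      rw [norm_one] at h2
      linarith
  have hC1 : 0 ≤ max |Real.log (1 - s)| (Real.log 2) := le_max_of_le_left (abs_nonneg _)
  have hC2 : 0 ≤ θ / (1 - s) := by positivity
  refine ⟨max |Real.log (1 - s)| (Real.log 2) + θ / (1 - s), by positivity,
    fun w w' hw hw' => ⟨?_, ?_, ?_⟩⟩
  · intro h
    have h1 := (hn w hw).1
    rw [h, norm_zero] at h1
    linarith
  · obtain ⟨h1, h2⟩ := hn w hw
    have h3 := Real.log_le_log hm h1
    have h4 := Real.log_le_log (hm.trans_le h1) h2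
    have h5 : |G θ w| ≤ max |Real.log (1 - s)| (Real.log 2) := by
      unfold G
      rw [abs_le]
      constructor
      · have h6 := neg_abs_le (Real.log (1 - s))
        have h7 := le_max_left |Real.log (1 - s)| (Real.log 2)
        linarith
      · exact h4.trans (le_max_right _ _)
    linarith
  · obtain ⟨h1, h2⟩ := hn w hw
    obtain ⟨h1', h2'⟩ := hn w' hw'
    have h3 := log_lip hm h1 h1'
    have h4 : |‖1 - cexp (-(θ * w))‖ - ‖1 - cexp (-(θ * w'))‖| ≤ θ * ‖w - w'‖ := by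
      refine (abs_norm_sub_norm_le _ _).trans ?_
      have h5 : 1 - cexp (-(θ * w)) - (1 - cexp (-(θ * w'))) =
          -(cexp (-(θ * w)) - cexp (-(θ * w'))) := by ring
      rw [h5, norm_neg]
      exact exp_lip θ hθ (hδ.le.trans hw) (hδ.le.trans hw')
    have h6 : |G θ w - G θ w'| ≤ θ * ‖w - w'‖ / (1 - s) := by
      unfold G
      exact h3.trans (by gcongr)
    refine h6.trans ?_
    have h7 : θ * ‖w - w'‖ / (1 - s) = θ / (1 - s) * ‖w - w'‖ := by ring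
    rw [h7]
    have h8 : 0 ≤ max |Real.log (1 - s)| (Real.log 2) * ‖w - w'‖ :=
      mul_nonneg hC1 (norm_nonneg _)
    nlinarith

/-- module GL -/
theorem pf_gl (hTRA : T_TRA) (hLI : T_LI) : T_GL := by
  intro θ R hθ hR
  have hG := G_loc hLI θ hθ
  set P : ℝ := 2 * Real.pi / θ with hP
  refine ⟨?_, ?_, fun δ hδ => G_right θ δ hθ hδ⟩
  · refine ⟨(L1 (R + (1 + P)) (G θ)).toReal, fun ζ hζ => ?_⟩
    obtain ⟨k, ζ₀, h1, h2⟩ := shift θ hθ ζ hζ
    rw [ENNReal.ofReal_toReal (L1_lt_top hG _).ne]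
    have h3 : (fun z => G θ (z - ζ)) = fun z => G θ (z - ζ₀) := by
      funext z
      have h4 : z - ζ = (z - ζ₀) + ((-k : ℤ) : ℂ) * ((2 * Real.pi / θ : ℝ) : ℂ) * I := by
        rw [h1]
        push_cast
        ring
      rw [h4, G_per θ hθ]
    rw [h3]
    exact L1_sub_le (G θ) ζ₀ h2
  · intro δ hδ
    obtain ⟨η, hη, h, -⟩ := hTRA (G θ) hG (R + (1 + P)) δ hδ
    refine ⟨η, hη, fun ζ ζ' hζ hζ' hd => ?_⟩
    obtain ⟨k, ζ₀, h1, h2⟩ := shift θ hθ ζ hζ
    refine le_trans ?_ (h (ζ - ζ') hd)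
    refine le_trans (le_of_eq ?_) (L1_sub_le (fun w => G θ (w + (ζ - ζ')) - G θ w) ζ₀ h2)
    unfold L1
    refine lintegral_congr fun z => ?_
    have h4 : z - ζ = (z - ζ₀) + ((-k : ℤ) : ℂ) * ((2 * Real.pi / θ : ℝ) : ℂ) * I := by
      rw [h1]
      push_cast
      ring
    have h5 : z - ζ' = (z - ζ₀ + (ζ - ζ')) + ((-k : ℤ) : ℂ) * ((2 * Real.pi / θ : ℝ) : ℂ) * I := by
      rw [h1]
      push_cast
      ring
    have h6 : G θ (z - ζ) = G θ (z - ζ₀) := by rw [h4, G_per θ hθ]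
    have h7 : G θ (z - ζ') = G θ (z - ζ₀ + (ζ - ζ')) := by rw [h5, G_per θ hθ]
    show ‖G θ (z - ζ) - G θ (z - ζ')‖ₑ = ‖G θ (z - ζ₀ + (ζ - ζ')) - G θ (z - ζ₀)‖ₑ
    rw [h6, h7, ← enorm_neg]
    congr 1
    ring

end Pool.Agent.H56.LIM
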