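import Pool.Agent.H20.LIM.Targets

/-!
Module VPR: the symmetric form of a profile.
-/

set_option autoImplicit false

open Complex MeasureTheory Set Filter Topology Metric

namespace Pool.Agent.H56.LIM

open Pool.Agent.H20.LIM

/-- the reflection `z ↦ -conj z` -/
noncomputable def Jr : ℂ ≃ₗᵢ[ℝ] ℂ := Complex.conjLIE.trans (LinearIsometryEquiv.neg ℝ)

lemma Jr_apply (z : ℂ) : Jr z = -(starRingEnd ℂ) z := rfl

lemma Jr_Jr (z : ℂ) : Jr (Jr z) = z := by
  rw [Jr_apply, Jr_apply, map_neg, Complex.conj_conj, neg_neg]

lemma Jr_re (z : ℂ) : (Jr z).re = -z.re := by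
  rw [Jr_apply]
  simp

lemma Jr_mp : MeasurePreserving Jr (volume : Measure ℂ) volume := Jr.measurePreserving

lemma ae_Jr {P : ℂ → Prop} (h : ∀ᵐ z : ℂ, P z) : ∀ᵐ z : ℂ, P (Jr z) :=
  Jr_mp.quasiMeasurePreserving.ae h

/-- the average of an odd function -/
lemma integral_odd (z : ℂ) (r : ℝ) : ∫ w in ball z r, (w.re - z.re) = 0 := by
  have h1 : ∫ w in ball z r, (w.re - z.re) =
      ∫ w, (ball z r).indicator (fun w : ℂ => w.re - z.re) w :=
    (integral_indicator measurableSet_ball).symm
  have h2 := integral_sub_left_eq_self ((ball z r).indicator (fun w : ℂ => w.re - z.re)) volume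
    (2 * z)
  have h3 : (fun w => (ball z r).indicator (fun w : ℂ => w.re - z.re) (2 * z - w)) =
      fun w => -(ball z r).indicator (fun w : ℂ => w.re - z.re) w := by
    funext w
    have h4 : 2 * z - w ∈ ball z r ↔ w ∈ ball z r := by
      rw [mem_ball, mem_ball, dist_eq_norm, dist_eq_norm, ← norm_neg]
      have : -(2 * z - w - z) = w - z := by ring
      rw [this]
    by_cases h : w ∈ ball z r
    · rw [indicator_of_mem h, indicator_of_mem (h4.2 h)]
      simp
      ring
    · rw [indicator_of_notMem h, indicator_of_notMem fun h5 => h (h4.1 h5), neg_zero]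
  rw [h3, integral_neg] at h2
  rw [h1]
  linarith

lemma vol_ball_pos (z : ℂ) {r : ℝ} (hr : 0 < r) : 0 < volume.real (ball z r) := by
  rw [measureReal_def, ENNReal.toReal_pos_iff]
  exact ⟨measure_ball_pos _ _ hr, measure_ball_lt_top⟩

/-- averages of `f + c Re` -/
lemma av_add_re {f : ℂ → ℝ} (hf : LocallyIntegrable f volume) (c : ℝ) (z : ℂ) {r : ℝ}
    (hr : 0 < r) : av r (fun w => f w + c * w.re) z = av r f z + c * z.re := by
  have hi : IntegrableOn f (ball z r) :=
    (hf.integrableOn_isCompact (isCompact_closedBall z r)).mono_set ball_subset_closedBall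
  have hg : IntegrableOn (fun w : ℂ => c * w.re) (ball z r) := by
    refine IntegrableOn.mono_set ?_ ball_subset_closedBall
    exact ContinuousOn.integrableOn_compact (isCompact_closedBall z r)
      (by fun_prop)
  have hk : IntegrableOn (fun _ : ℂ => z.re) (ball z r) :=
    integrableOn_const measure_ball_lt_top.ne
  have hre : IntegrableOn (fun w : ℂ => w.re) (ball z r) := by
    refine IntegrableOn.mono_set ?_ ball_subset_closedBall
    exact ContinuousOn.integrableOn_compact (isCompact_closedBall z r)
      (by fun_prop)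
  have h0 := integral_odd z r
  rw [integral_sub hre hk, setIntegral_const, smul_eq_mul] at h0
  have hv := vol_ball_pos z hr
  unfold av
  rw [setAverage_eq, setAverage_eq, integral_add hi hg, integral_const_mul, smul_eq_mul,
    smul_eq_mul]
  have h1 : ∫ w in ball z r, w.re = volume.real (ball z r) * z.re := by linarith
  rw [h1]
  field_simp

/-- module VPR -/
theorem pf_vpr : T_VPR := by
  intro q u hq hu
  have hJ := hu.func
  refine ⟨?_, ?_, ?_, ?_, ?_⟩
  · exact hu.loc.add (Continuous.locallyIntegrable (by fun_prop))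
  · intro r hr
    filter_upwards [hu.sub r hr] with z hz
    have h1 := av_add_re hu.loc (q / 2) z hr
    rw [h1]
    have h2 : u z ≤ av r u z := hz
    linarith
  · filter_upwards [hu.right, ae_Jr hu.right, hu.func] with z h1 h2 h3 h4
    rcases lt_abs.1 h4 with h5 | h5
    · rw [h1 h5, abs_of_pos (by linarith)]
      ring
    · have h6 : u (Jr z) = 0 := h2 (by rw [Jr_re]; exact h5)
      rw [Jr_apply] at h6
      rw [h6] at h3
      rw [abs_of_neg (by linarith)]
      linarith
  · filter_upwards [hu.func] with z h1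
    have h2 : (-(starRingEnd ℂ) z).re = -z.re := Jr_re z
    rw [h1, h2]
    ring
  · filter_upwards [hu.conv] with z h1 h2
    have h3 := h1 h2
    linarith

end Pool.Agent.H56.LIM
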